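import Mathlib

/-!
# Automorphism groups of intersection graphs of connected subgraphs of a subdivided graph

For a finite graph `Y` let `𝒢(Y)` be the class of intersection graphs of finite families of
connected subgraphs of subdivisions of `Y`. We show that `𝒢(Y)` is universal (every finite group is
the automorphism group of a member) as soon as `Y` has two disjoint connected sets of vertices with
at least four edges between them, in particular for `Y = K₄`. So the class `𝒢(Y)` is not
non-universal for every finite graph `Y`.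

The idea: with four subdivided edges between `A` and `B` one can represent the complement of the
incidence graph between points and axis-parallel boxes of an integer grid, the points being
connected sets around `A` and the boxes being connected sets around `B`. Points and boxes are then
chosen so that the automorphisms of the incidence graph are exactly the left translations of a
given group.
-/

set_option autoImplicit false

namespace Pool.Agent.Results.MP_f0827e_co.FourDipole

open SimpleGraph

universe u v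

section Defs

variable {W : Type u}

/-- Vertices of the subdivision of `Y` in which the edge `e` gets `n e` new vertices. -/
abbrev SubVert (Y : SimpleGraph W) (n : Y.edgeSet → ℕ) : Type u :=
  W ⊕ {p : Y.edgeSet × ℕ // p.2 < n p.1}

/-- The vertices of the path replacing the edge `e`, which is oriented from `(o e).1` to
`(o e).2`: the vertex number `0` is `(o e).1`, the numbers `1, …, n e` are the new vertices, and
the number `n e + 1` is `(o e).2`. -/
def node (Y : SimpleGraph W) (o : Y.edgeSet → W × W) (n : Y.edgeSet → ℕ) (e : Y.edgeSet) :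
    ℕ → SubVert Y n
  | 0 => Sum.inl (o e).1
  | t + 1 => if h : t < n e then Sum.inr ⟨(e, t), h⟩ else Sum.inl (o e).2

/-- The subdivision of `Y` in which each edge `e` is replaced by a path with `n e` new internal
vertices; `o` orients the edges. Two vertices are adjacent if they are consecutive on one of the
paths. -/
def subdivision (Y : SimpleGraph W) (o : Y.edgeSet → W × W) (n : Y.edgeSet → ℕ) :
    SimpleGraph (SubVert Y n) :=
  SimpleGraph.fromRel fun x y =>
    ∃ (e : Y.edgeSet) (t : ℕ), t ≤ n e ∧ x = node Y o n e t ∧ y = node Y o n e (t + 1)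

/-- `G` belongs to the class `𝒢(Y)`: it is the intersection graph of a family of connected
subgraphs of some subdivision of `Y`. -/
def InClass (Y : SimpleGraph W) {X : Type v} (G : SimpleGraph X) : Prop :=
  ∃ (o : Y.edgeSet → W × W) (n : Y.edgeSet → ℕ),
    (∀ e, s((o e).1, (o e).2) = (e : Sym2 W)) ∧
    ∃ S : X → (subdivision Y o n).Subgraph, (∀ x, (S x).Connected) ∧
      ∀ x y, x ≠ y → (G.Adj x y ↔ ((S x).verts ∩ (S y).verts).Nonempty)

/-- The class `𝒢(Y)` is universal: every finite group is isomorphic to the automorphism group of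
some finite graph in `𝒢(Y)`. -/
def Universal (Y : SimpleGraph W) : Prop :=
  ∀ (Γ : Type v) [Group Γ] [Finite Γ], ∃ (X : Type v) (_ : Finite X) (G : SimpleGraph X),
    InClass Y G ∧ Nonempty (Γ ≃* (G ≃g G))

end Defs

section Rep

variable {W : Type u} {Y : SimpleGraph W} {A B : Set W}

theorem adj_node {o : Y.edgeSet → W × W} {n : Y.edgeSet → ℕ} (e : Y.edgeSet) (t : ℕ)
    (ht : t ≤ n e) (hne : node Y o n e t ≠ node Y o n e (t + 1)) :
    (subdivision Y o n).Adj (node Y o n e t) (node Y o n e (t + 1)) := by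
  rw [subdivision, SimpleGraph.fromRel_adj]
  exact ⟨hne, Or.inl ⟨e, t, ht, rfl, rfl⟩⟩

/-- The main representation lemma. -/
theorem rep {X : Type v} (hdis : Disjoint A B) (hA : (Y.induce A).Connected)
    (hB : (Y.induce B).Connected) (p : Fin 4 → W) (q : Fin 4 → W)
    (hp : ∀ i, p i ∈ A) (hq : ∀ i, q i ∈ B) (hpq : ∀ i, Y.Adj (p i) (q i))
    (hinj : Function.Injective fun i => (p i, q i))
    (G : SimpleGraph X) (side : X → Prop) (pos : X → Fin 4 → ℕ) (L : ℕ)
    (hL : ∀ x i, pos x i ≤ L)
    (h1 : ∀ x y, x ≠ y → (side x ↔ side y) → G.Adj x y)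
    (h2 : ∀ x y, side x → ¬ side y → (G.Adj x y ↔ ∃ i, pos y i < pos x i)) :
    InClass Y G := by
  classical
  let E : Fin 4 → Y.edgeSet := fun i => ⟨s(p i, q i), (SimpleGraph.mem_edgeSet Y).2 (hpq i)⟩
  have hAB : ∀ a ∈ A, a ∉ B := fun a ha hb => (Set.disjoint_left.1 hdis) ha hb
  have hE : Function.Injective E := by
    intro i j hij
    have h : s(p i, q i) = s(p j, q j) := congrArg Subtype.val hij
    rw [Sym2.eq_iff] at h
    rcases h with h | h
    · exact hinj (Prod.ext h.1 h.2)
    · exact absurd (h.1 ▸ hq j) (hAB _ (hp i))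
  let o : Y.edgeSet → W × W := fun e =>
    if h : ∃ i, e = E i then (p h.choose, q h.choose) else Quot.out e.1
  let n : Y.edgeSet → ℕ := fun e => if ∃ i, e = E i then L else 0
  have hoE : ∀ i, o (E i) = (p i, q i) := by
    intro i
    have h : ∃ j, E i = E j := ⟨i, rfl⟩
    have h' : h.choose = i := (hE h.choose_spec).symm
    simp only [o, dif_pos h, h']
  have hnE : ∀ i, n (E i) = L := by
    intro i
    have h : ∃ j, E i = E j := ⟨i, rfl⟩
    simp only [n, if_pos h]
  have ho : ∀ e, s((o e).1, (o e).2) = (e : Sym2 W) := by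
    intro e
    by_cases h : ∃ i, e = E i
    · obtain ⟨i, rfl⟩ := h
      rw [hoE i]
    · simp only [o, dif_neg h]
      exact Quot.out_eq e.1
  -- edges inside a set which meets no special edge
  have hflat : ∀ (a b : W) (hab : Y.Adj a b), (∀ i, (⟨s(a, b), hab⟩ : Y.edgeSet) ≠ E i) →
      (subdivision Y o n).Adj (Sum.inl a) (Sum.inl b) := by
    intro a b hab hne
    have hn0 : n ⟨s(a, b), hab⟩ = 0 := by
      have : ¬ ∃ i, (⟨s(a, b), hab⟩ : Y.edgeSet) = E i := fun ⟨i, hi⟩ => hne i hi
      simp only [n, if_neg this]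
    have hs := ho ⟨s(a, b), hab⟩
    have h01 : node Y o n ⟨s(a, b), hab⟩ 1 = Sum.inl (o ⟨s(a, b), hab⟩).2 := by
      rw [node, dif_neg]
      rw [hn0]
      exact lt_irrefl 0
    rw [subdivision, SimpleGraph.fromRel_adj]
    refine ⟨fun h => hab.ne (Sum.inl_injective h), ?_⟩
    rw [Sym2.eq_iff] at hs
    rcases hs with hs | hs
    · left
      refine ⟨⟨s(a, b), hab⟩, 0, Nat.zero_le _, ?_, ?_⟩
      · rw [node, hs.1]
      · rw [h01, hs.2]
    · right
      refine ⟨⟨s(a, b), hab⟩, 0, Nat.zero_le _, ?_, ?_⟩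
      · rw [node, hs.1]
      · rw [h01, hs.2]
  have hflatA : ∀ a ∈ A, ∀ b ∈ A, Y.Adj a b → (subdivision Y o n).Adj (Sum.inl a) (Sum.inl b) := by
    intro a ha b hb hab
    refine hflat a b hab fun i hi => ?_
    have h : s(a, b) = s(p i, q i) := congrArg Subtype.val hi
    rw [Sym2.eq_iff] at h
    rcases h with h | h
    · exact hAB _ (h.2 ▸ hb) (hq i)
    · exact hAB _ (h.1 ▸ ha) (hq i)
  have hflatB : ∀ a ∈ B, ∀ b ∈ B, Y.Adj a b → (subdivision Y o n).Adj (Sum.inl a) (Sum.inl b) := by
    intro a ha b hb hab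
    refine hflat a b hab fun i hi => ?_
    have h : s(a, b) = s(p i, q i) := congrArg Subtype.val hi
    rw [Sym2.eq_iff] at h
    rcases h with h | h
    · exact hAB _ (hp i) (h.1 ▸ ha)
    · exact hAB _ (hp i) (h.2 ▸ hb)
  -- nodes on special edges
  have hnode : ∀ i t (ht : t < L), ∃ h : t < n (E i),
      node Y o n (E i) (t + 1) = Sum.inr ⟨(E i, t), h⟩ := by
    intro i t ht
    have h : t < n (E i) := by rw [hnE]; exact ht
    exact ⟨h, by rw [node, dif_pos h]⟩
  let sL : X → Set (SubVert Y n) := fun x =>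
    (Sum.inl '' A) ∪ {z | ∃ i t, ∃ h : t < n (E i), t < pos x i ∧ z = Sum.inr ⟨(E i, t), h⟩}
  let sR : X → Set (SubVert Y n) := fun x =>
    (Sum.inl '' B) ∪ {z | ∃ i t, ∃ h : t < n (E i), pos x i ≤ t ∧ z = Sum.inr ⟨(E i, t), h⟩}
  have hcL : ∀ x, ((subdivision Y o n).induce (sL x)).Connected := by
    intro x
    obtain ⟨⟨a0, ha0⟩⟩ := hA.nonempty
    have hmem : ∀ a ∈ A, (Sum.inl a : SubVert Y n) ∈ sL x := fun a ha => Or.inl ⟨a, ha, rfl⟩
    let f : Y.induce A →g (subdivision Y o n).induce (sL x) :=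
      ⟨fun a => ⟨Sum.inl a.1, hmem a.1 a.2⟩, fun {a b} hab => hflatA _ a.2 _ b.2 hab⟩
    have hreachA : ∀ a (ha : a ∈ A), ((subdivision Y o n).induce (sL x)).Reachable
        ⟨Sum.inl a0, hmem a0 ha0⟩ ⟨Sum.inl a, hmem a ha⟩ := by
      intro a ha
      exact (hA.preconnected ⟨a0, ha0⟩ ⟨a, ha⟩).map f
    have hreach : ∀ i t, ∀ h : t < n (E i), ∀ (h' : t < pos x i),
        ((subdivision Y o n).induce (sL x)).Reachable
        ⟨Sum.inl a0, hmem a0 ha0⟩ ⟨Sum.inr ⟨(E i, t), h⟩, Or.inr ⟨i, t, h, h', rfl⟩⟩ := by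
      intro i t
      induction t with
      | zero =>
        intro h h'
        refine (hreachA (p i) (hp i)).trans (SimpleGraph.Adj.reachable ?_)
        change (subdivision Y o n).Adj _ _
        have e0 : node Y o n (E i) 0 = Sum.inl (p i) := by rw [node, hoE]
        have e1 : node Y o n (E i) (0 + 1) = Sum.inr ⟨(E i, 0), h⟩ := by rw [node, dif_pos h]
        have := adj_node (o := o) (n := n) (E i) 0 (Nat.zero_le _) (by rw [e0, e1]; simp)
        rw [e0, e1] at this
        exact this
      | succ t ih =>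
        intro h h'
        refine (ih (by omega) (by omega)).trans (SimpleGraph.Adj.reachable ?_)
        change (subdivision Y o n).Adj _ _
        have h0 : t < n (E i) := by omega
        have e0 : node Y o n (E i) (t + 1) = Sum.inr ⟨(E i, t), h0⟩ := by rw [node, dif_pos h0]
        have e1 : node Y o n (E i) (t + 1 + 1) = Sum.inr ⟨(E i, t + 1), h⟩ := by
          rw [node, dif_pos h]
        have := adj_node (o := o) (n := n) (E i) (t + 1) (by omega) (by rw [e0, e1]; simp)
        rw [e0, e1] at this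
        exact this
    rw [connected_iff_exists_forall_reachable]
    refine ⟨⟨Sum.inl a0, hmem a0 ha0⟩, ?_⟩
    rintro ⟨z, hz⟩
    rcases hz with ⟨a, ha, rfl⟩ | ⟨i, t, h, h', rfl⟩
    · exact hreachA a ha
    · exact hreach i t h h'
  have hcR : ∀ x, ((subdivision Y o n).induce (sR x)).Connected := by
    intro x
    obtain ⟨⟨a0, ha0⟩⟩ := hB.nonempty
    have hmem : ∀ a ∈ B, (Sum.inl a : SubVert Y n) ∈ sR x := fun a ha => Or.inl ⟨a, ha, rfl⟩
    let f : Y.induce B →g (subdivision Y o n).induce (sR x) :=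
      ⟨fun a => ⟨Sum.inl a.1, hmem a.1 a.2⟩, fun {a b} hab => hflatB _ a.2 _ b.2 hab⟩
    have hreachB : ∀ a (ha : a ∈ B), ((subdivision Y o n).induce (sR x)).Reachable
        ⟨Sum.inl a0, hmem a0 ha0⟩ ⟨Sum.inl a, hmem a ha⟩ := by
      intro a ha
      exact (hB.preconnected ⟨a0, ha0⟩ ⟨a, ha⟩).map f
    have hreach : ∀ i k t, t + k + 1 = L → ∀ h : t < n (E i), ∀ (h' : pos x i ≤ t),
        ((subdivision Y o n).induce (sR x)).Reachable
        ⟨Sum.inl a0, hmem a0 ha0⟩ ⟨Sum.inr ⟨(E i, t), h⟩, Or.inr ⟨i, t, h, h', rfl⟩⟩ := by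
      intro i k
      induction k with
      | zero =>
        intro t ht h h'
        refine (hreachB (q i) (hq i)).trans (SimpleGraph.Adj.reachable ?_)
        change (subdivision Y o n).Adj _ _
        have e0 : node Y o n (E i) (t + 1) = Sum.inr ⟨(E i, t), h⟩ := by rw [node, dif_pos h]
        have e1 : node Y o n (E i) (t + 1 + 1) = Sum.inl (q i) := by
          rw [node, dif_neg, hoE]
          rw [hnE]; omega
        have := adj_node (o := o) (n := n) (E i) (t + 1) (by rw [hnE]; omega)
          (by rw [e0, e1]; simp)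
        rw [e0, e1] at this
        exact this.symm
      | succ k ih =>
        intro t ht h h'
        have h1 : t + 1 < n (E i) := by rw [hnE]; omega
        refine (ih (t + 1) (by omega) h1 (by omega)).trans (SimpleGraph.Adj.reachable ?_)
        change (subdivision Y o n).Adj _ _
        have e0 : node Y o n (E i) (t + 1) = Sum.inr ⟨(E i, t), h⟩ := by rw [node, dif_pos h]
        have e1 : node Y o n (E i) (t + 1 + 1) = Sum.inr ⟨(E i, t + 1), h1⟩ := by
          rw [node, dif_pos h1]
        have := adj_node (o := o) (n := n) (E i) (t + 1) (by omega) (by rw [e0, e1]; simp)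
        rw [e0, e1] at this
        exact this.symm
    rw [connected_iff_exists_forall_reachable]
    refine ⟨⟨Sum.inl a0, hmem a0 ha0⟩, ?_⟩
    rintro ⟨z, hz⟩
    rcases hz with ⟨a, ha, rfl⟩ | ⟨i, t, h, h', rfl⟩
    · exact hreachB a ha
    · have : t < L := by rw [← hnE i]; exact h
      exact hreach i (L - t - 1) t (by omega) h h'
  refine ⟨o, n, ho, fun x => (⊤ : (subdivision Y o n).Subgraph).induce
    (if side x then sL x else sR x), ?_, ?_⟩
  · intro x
    rw [← connected_induce_iff]
    by_cases hx : side x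
    · rw [if_pos hx]; exact hcL x
    · rw [if_neg hx]; exact hcR x
  · intro x y hxy
    simp only [Subgraph.induce_verts]
    have key : ∀ x y, side x → ¬ side y → ((∃ i, pos y i < pos x i) ↔ (sL x ∩ sR y).Nonempty) := by
      intro x y _ _
      constructor
      · rintro ⟨i, hi⟩
        have h : pos y i < n (E i) := by
          rw [hnE]; exact hi.trans_le (hL x i)
        exact ⟨Sum.inr ⟨(E i, pos y i), h⟩, Or.inr ⟨i, _, h, hi, rfl⟩,
          Or.inr ⟨i, _, h, le_rfl, rfl⟩⟩
      · rintro ⟨z, hz1, hz2⟩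
        rcases hz1 with ⟨a, ha, rfl⟩ | ⟨i, t, h, h', rfl⟩
        · rcases hz2 with ⟨b, hb, hab⟩ | ⟨i, t, h, h', hab⟩
          · have : b = a := Sum.inl_injective hab
            exact absurd (this ▸ hb) (hAB a ha)
          · cases hab
        · rcases hz2 with ⟨b, hb, hab⟩ | ⟨j, t', h'', h''', hab⟩
          · cases hab
          · have h3 := Sum.inr_injective hab
            have h4 : (E i, t) = (E j, t') := congrArg Subtype.val h3
            have h5 : i = j := hE (congrArg Prod.fst h4)
            have h6 : t = t' := congrArg Prod.snd h4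
            subst h5; subst h6
            exact ⟨i, by omega⟩
    by_cases hx : side x <;> by_cases hy : side y
    · rw [if_pos hx, if_pos hy]
      obtain ⟨⟨a0, ha0⟩⟩ := hA.nonempty
      exact ⟨fun _ => ⟨Sum.inl a0, Or.inl ⟨a0, ha0, rfl⟩, Or.inl ⟨a0, ha0, rfl⟩⟩,
        fun _ => h1 x y hxy (by tauto)⟩
    · rw [if_pos hx, if_neg hy, h2 x y hx hy]
      exact key x y hx hy
    · rw [if_neg hx, if_pos hy, SimpleGraph.adj_comm, h2 y x hy hx, Set.inter_comm]
      exact key y x hy hx
    · rw [if_neg hx, if_neg hy]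
      obtain ⟨⟨a0, ha0⟩⟩ := hB.nonempty
      exact ⟨fun _ => ⟨Sum.inl a0, Or.inl ⟨a0, ha0, rfl⟩, Or.inl ⟨a0, ha0, rfl⟩⟩,
        fun _ => h1 x y hxy (by tauto)⟩

end Rep

section Groups

variable {Γ : Type v} [Group Γ] {n : ℕ}

/-- Vertices of the graph attached to a group `Γ` with an enumeration by `Fin n`: the points
`P g h`, `Q h` and the boxes `V g i`, `W h`, `U`. -/
inductive Vt (Γ : Type v) (n : ℕ) : Type v
  | P (g h : Γ)
  | Q (h : Γ)
  | V (g : Γ) (i : Fin n)
  | W (h : Γ)
  | U

/-- The sum type with the same elements as `Vt Γ n`. -/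
def Vt.toSum : Vt Γ n → (Γ × Γ) ⊕ Γ ⊕ (Γ × Fin n) ⊕ Γ ⊕ Unit
  | .P g h => Sum.inl (g, h)
  | .Q h => Sum.inr (Sum.inl h)
  | .V g i => Sum.inr (Sum.inr (Sum.inl (g, i)))
  | .W h => Sum.inr (Sum.inr (Sum.inr (Sum.inl h)))
  | .U => Sum.inr (Sum.inr (Sum.inr (Sum.inr ())))

omit [Group Γ] in
theorem Vt.toSum_injective : Function.Injective (Vt.toSum : Vt Γ n → _) := by
  intro x y h
  cases x <;> cases y <;> simp_all [Vt.toSum]

instance [Finite Γ] : Finite (Vt Γ n) := Finite.of_injective _ Vt.toSum_injective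

/-- A point lies in a box. -/
def inc (e : Γ ≃ Fin n) : Vt Γ n → Vt Γ n → Prop
  | .P g h, .V g' i => g = g' ∧ e (g⁻¹ * h) ≤ i
  | .P _ h, .W h' => h = h'
  | .P _ _, .U => True
  | .Q h, .W h' => h = h'
  | .Q _, .U => True
  | _, _ => False

/-- The points. -/
def side : Vt Γ n → Prop
  | .P _ _ => True
  | .Q _ => True
  | _ => False

/-- The complement of the incidence graph of points and boxes. -/
def XG (e : Γ ≃ Fin n) : SimpleGraph (Vt Γ n) where
  Adj x y := x ≠ y ∧ ¬ inc e x y ∧ ¬ inc e y x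
  symm := ⟨fun _ _ h => ⟨h.1.symm, h.2.2, h.2.1⟩⟩
  loopless := ⟨fun _ h => h.1 rfl⟩

/-- Lengths of the four legs. -/
def pos (e : Γ ≃ Fin n) : Vt Γ n → Fin 4 → ℕ
  | .P g h => ![n * e g + e (g⁻¹ * h), n * n - (n * e g + e (g⁻¹ * h)), e h, n * n - e h]
  | .Q h => ![n * n, 0, e h, n * n - e h]
  | .V g i => ![n * e g + i, n * n - n * e g, n * n, n * n]
  | .W h => ![n * n, n * n, e h, n * n - e h]
  | .U => ![n * n, n * n, n * n, n * n]

theorem lin_lt (a b : Fin n) : n * (a : ℕ) + b < n * n := by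
  have h1 := a.2
  have h2 := b.2
  calc n * (a : ℕ) + b < n * (a : ℕ) + n := by omega
    _ = n * (a + 1) := by ring
    _ ≤ n * n := Nat.mul_le_mul_left n h1

theorem lt_sq (a : Fin n) : (a : ℕ) < n * n := by
  have h1 := a.2
  have h2 : n * 1 ≤ n * n := Nat.mul_le_mul_left n (by omega)
  omega

theorem pos_le (e : Γ ≃ Fin n) (x : Vt Γ n) (i : Fin 4) : pos e x i ≤ n * n := by
  cases x with
  | P g h =>
    have h1 := lin_lt (e g) (e (g⁻¹ * h))
    have h2 := lt_sq (e h)
    fin_cases i <;> simp [pos] <;> omega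
  | Q h =>
    have h2 := lt_sq (e h)
    fin_cases i <;> simp [pos] <;> omega
  | V g j =>
    have h1 := lin_lt (e g) j
    fin_cases i <;> simp [pos] <;> omega
  | W h =>
    have h2 := lt_sq (e h)
    fin_cases i <;> simp [pos] <;> omega
  | U => fin_cases i <;> simp [pos]

theorem side_adj (e : Γ ≃ Fin n) (x y : Vt Γ n) (h : x ≠ y) (hs : side x ↔ side y) :
    (XG e).Adj x y := by
  cases x <;> cases y <;> simp_all [XG, inc, side]

theorem lex_iff {a a' b b' : Fin n} :
    (n * (a : ℕ) + b ≤ n * a' + b' ∧ n * n - (n * (a : ℕ) + b) ≤ n * n - n * a') ↔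
      (a = a' ∧ b ≤ b') := by
  have h1 := lin_lt a b
  have h2 := lin_lt a' b'
  have ha := a.2
  have ha' := a'.2
  have hb := b.2
  have hb' := b'.2
  constructor
  · rintro ⟨h3, h4⟩
    have h5 : n * (a' : ℕ) ≤ n * a + b := by omega
    have h6 : (a : ℕ) = a' := by
      rcases lt_trichotomy (a : ℕ) a' with h | h | h
      · exfalso
        have : n * ((a : ℕ) + 1) ≤ n * a' := Nat.mul_le_mul_left n h
        rw [mul_add] at this
        omega
      · exact h
      · exfalso
        have : n * ((a' : ℕ) + 1) ≤ n * a := Nat.mul_le_mul_left n h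
        rw [mul_add] at this
        omega
    have h7 : a = a' := Fin.ext h6
    subst h7
    refine ⟨rfl, ?_⟩
    rw [Fin.le_def]
    omega
  · rintro ⟨rfl, h3⟩
    rw [Fin.le_def] at h3
    omega

theorem inc_side (e : Γ ≃ Fin n) (x y : Vt Γ n) (h : inc e x y) : side x := by
  cases x with
  | P _ _ => trivial
  | Q _ => trivial
  | V _ _ => exact h.elim
  | W _ => exact h.elim
  | U => exact h.elim

theorem inc_iff (e : Γ ≃ Fin n) (x y : Vt Γ n) (hx : side x) (hy : ¬ side y) :
    inc e x y ↔ ∀ i, pos e x i ≤ pos e y i := by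
  rw [Fin.forall_fin_succ, Fin.forall_fin_succ, Fin.forall_fin_succ, Fin.forall_fin_succ]
  cases x with
  | P g h =>
    have h1 := lin_lt (e g) (e (g⁻¹ * h))
    have h2 := lt_sq (e h)
    cases y with
    | P _ _ => exact absurd trivial hy
    | Q _ => exact absurd trivial hy
    | V g' i =>
      have h3 := lex_iff (a := e g) (a' := e g') (b := e (g⁻¹ * h)) (b' := i)
      rw [e.injective.eq_iff] at h3
      simp only [inc, pos, ← h3]
      simp
      intros
      omega
    | W h' =>
      have h4 := lt_sq (e h')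
      have h5 : h = h' ↔ (e h : ℕ) = e h' := by rw [← Fin.ext_iff, e.injective.eq_iff]
      simp only [inc, pos, h5]
      simp
      omega
    | U => simp [inc, pos]; omega
  | Q h =>
    have h2 := lt_sq (e h)
    cases y with
    | P _ _ => exact absurd trivial hy
    | Q _ => exact absurd trivial hy
    | V g' i =>
      have h3 := lin_lt (e g') i
      simp only [inc, pos]
      simp
      omega
    | W h' =>
      have h4 := lt_sq (e h')
      have h5 : h = h' ↔ (e h : ℕ) = e h' := by rw [← Fin.ext_iff, e.injective.eq_iff]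
      simp only [inc, pos, h5]
      simp
      omega
    | U => simp [inc, pos]; omega
  | V _ _ => exact hx.elim
  | W _ => exact hx.elim
  | U => exact hx.elim

/-- The set of non-neighbours. -/
def nn (e : Γ ≃ Fin n) (x : Vt Γ n) : Set (Vt Γ n) := {y | inc e x y ∨ inc e y x}

theorem mem_nn (e : Γ ≃ Fin n) (x y : Vt Γ n) :
    y ∈ nn e x ↔ x ≠ y ∧ ¬ (XG e).Adj x y := by
  have h : ∀ x : Vt Γ n, ¬ inc e x x := by intro x; cases x <;> simp [inc]
  constructor
  · intro hy
    have hne : x ≠ y := by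
      rintro rfl
      rcases hy with hy | hy <;> exact h _ hy
    refine ⟨hne, fun ha => ?_⟩
    rcases hy with hy | hy
    · exact ha.2.1 hy
    · exact ha.2.2 hy
  · rintro ⟨h1, h2⟩
    by_contra h3
    exact h2 ⟨h1, fun h => h3 (Or.inl h), fun h => h3 (Or.inr h)⟩

theorem mem_nn_iso (e : Γ ≃ Fin n) (φ : XG e ≃g XG e) (x y : Vt Γ n) :
    φ y ∈ nn e (φ x) ↔ y ∈ nn e x := by
  rw [mem_nn, mem_nn, φ.injective.ne_iff, φ.map_adj_iff]

theorem ncard_nn_iso (e : Γ ≃ Fin n) (φ : XG e ≃g XG e) (x : Vt Γ n) :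
    (nn e (φ x)).ncard = (nn e x).ncard := by
  have : nn e (φ x) = φ '' nn e x := by
    ext y
    obtain ⟨y, rfl⟩ := φ.surjective y
    rw [mem_nn_iso]
    constructor
    · exact fun h => ⟨y, h, rfl⟩
    · rintro ⟨z, hz, h⟩
      rwa [← φ.injective h]
  rw [this, Set.ncard_image_of_injective _ φ.injective]

theorem ncard_range {α : Type*} {β : Type*} {f : α → β} (hf : Function.Injective f) :
    (Set.range f).ncard = Nat.card α := by
  rw [← Set.image_univ, Set.ncard_image_of_injective _ hf, Set.ncard_univ]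

omit [Group Γ] in
theorem card_group (e : Γ ≃ Fin n) : Nat.card Γ = n := by
  rw [Nat.card_congr e, Nat.card_eq_fintype_card, Fintype.card_fin]

theorem ncard_U (e : Γ ≃ Fin n) : (nn e (Vt.U : Vt Γ n)).ncard = n * n + n := by
  have : Finite Γ := Finite.of_equiv _ e.symm
  have h : nn e (Vt.U : Vt Γ n) =
      Set.range (Sum.elim (fun p : Γ × Γ => Vt.P p.1 p.2) (fun h : Γ => Vt.Q h)) := by
    ext y
    cases y <;> simp [nn, inc]
  rw [h, ncard_range, Nat.card_sum, Nat.card_prod, card_group e]
  intro a b hab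
  rcases a with a | a <;> rcases b with b | b <;> simp_all [Prod.ext_iff]

theorem ncard_W (e : Γ ≃ Fin n) (h : Γ) : (nn e (Vt.W h : Vt Γ n)).ncard = n + 1 := by
  have : Finite Γ := Finite.of_equiv _ e.symm
  have hh : nn e (Vt.W h : Vt Γ n) =
      Set.range (Sum.elim (fun g : Γ => Vt.P g h) (fun _ : Unit => Vt.Q h)) := by
    ext y
    cases y <;> simp [nn, inc, eq_comm]
  rw [hh, ncard_range, Nat.card_sum, card_group e]
  · simp
  intro a b hab
  rcases a with a | a <;> rcases b with b | b <;> simp_all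

theorem ncard_V (e : Γ ≃ Fin n) (g : Γ) (i : Fin n) :
    (nn e (Vt.V g i : Vt Γ n)).ncard = i + 1 := by
  have hh : nn e (Vt.V g i : Vt Γ n) =
      Set.range (fun j : Set.Iic i => Vt.P g (g * e.symm j.1)) := by
    ext y
    cases y with
    | P g' h =>
      simp only [nn, inc, Set.mem_ofPred_eq, Set.mem_range, Vt.P.injEq, false_or, Subtype.exists,
        Set.mem_Iic, exists_prop]
      constructor
      · rintro ⟨rfl, h2⟩
        exact ⟨_, h2, rfl, by simp⟩
      · rintro ⟨j, hj, rfl, rfl⟩
        simpa using hj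
    | _ => simp [nn, inc]
  rw [hh, ncard_range]
  · simp
  · intro a b hab
    simp only [Vt.P.injEq, mul_right_inj, EmbeddingLike.apply_eq_iff_eq, true_and] at hab
    exact Subtype.ext hab

theorem ncard_Q (e : Γ ≃ Fin n) (h : Γ) : (nn e (Vt.Q h : Vt Γ n)).ncard = 2 := by
  have hh : nn e (Vt.Q h : Vt Γ n) = {Vt.W h, Vt.U} := by
    ext y
    cases y <;> simp [nn, inc, eq_comm]
  rw [hh, Set.ncard_pair]
  simp

theorem ncard_P (e : Γ ≃ Fin n) (g h : Γ) :
    (nn e (Vt.P g h : Vt Γ n)).ncard = n - e (g⁻¹ * h) + 2 := by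
  have hh : nn e (Vt.P g h : Vt Γ n) =
      Set.range (Sum.elim (fun j : Set.Ici (e (g⁻¹ * h)) => Vt.V g j.1)
        (fun b : Bool => if b then Vt.W h else Vt.U)) := by
    ext y
    cases y with
    | V g' i =>
      simp only [nn, inc, Set.mem_ofPred_eq, or_false, Set.mem_range, Sum.exists, Sum.elim_inl,
        Vt.V.injEq, Subtype.exists, Set.mem_Ici, exists_prop, Sum.elim_inr]
      constructor
      · rintro ⟨rfl, h2⟩
        exact Or.inl ⟨i, h2, rfl, rfl⟩
      · rintro (⟨j, hj, rfl, rfl⟩ | ⟨b, hb⟩)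
        · exact ⟨rfl, hj⟩
        · cases b <;> simp at hb
    | _ => simp [nn, inc, eq_comm]
  rw [hh, ncard_range, Nat.card_sum]
  · simp
  intro a b hab
  rcases a with a | a <;> rcases b with b | b
  · simp only [Sum.elim_inl, Vt.V.injEq, true_and] at hab
    rw [Subtype.ext hab]
  · cases b <;> simp at hab
  · cases a <;> simp at hab
  · cases a <;> cases b <;> simp at hab <;> rfl

/-- The left translation by `x`, as a map of vertices. -/
def act (x : Γ) : Vt Γ n → Vt Γ n
  | .P g h => .P (x * g) (x * h)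
  | .Q h => .Q (x * h)
  | .V g i => .V (x * g) i
  | .W h => .W (x * h)
  | .U => .U

theorem act_one (y : Vt Γ n) : act (1 : Γ) y = y := by
  cases y <;> simp [act]

theorem act_mul (x x' : Γ) (y : Vt Γ n) : act (x * x') y = act x (act x' y) := by
  cases y <;> simp [act, mul_assoc]

theorem inc_act (e : Γ ≃ Fin n) (x : Γ) (y z : Vt Γ n) :
    inc e (act x y) (act x z) ↔ inc e y z := by
  cases y <;> cases z <;> simp [inc, act, mul_assoc]

/-- The left translation by `x`, as an automorphism. -/
def actIso (e : Γ ≃ Fin n) (x : Γ) : XG e ≃g XG e where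
  toFun := act x
  invFun := act x⁻¹
  left_inv y := by rw [← act_mul, inv_mul_cancel, act_one]
  right_inv y := by rw [← act_mul, mul_inv_cancel, act_one]
  map_rel_iff' {y z} := by
    have h : act x y = act x z ↔ y = z := by
      constructor
      · intro h
        have := congrArg (act x⁻¹) h
        rwa [← act_mul, ← act_mul, inv_mul_cancel, act_one, act_one] at this
      · rintro rfl; rfl
    change (act x y ≠ act x z ∧ ¬ inc e (act x y) (act x z) ∧ ¬ inc e (act x z) (act x y)) ↔
      (y ≠ z ∧ ¬ inc e y z ∧ ¬ inc e z y)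
    rw [inc_act, inc_act, Ne, h]

/-- Every automorphism is a left translation. -/
theorem aut_eq (e : Γ ≃ Fin n) (hn : 2 ≤ n) (φ : XG e ≃g XG e) :
    ∃ x : Γ, ∀ y, φ y = act x y := by
  have hc := ncard_nn_iso e φ
  have hnn : n + 2 < n * n + n := by nlinarith
  -- `U` is fixed
  have hU : φ Vt.U = Vt.U := by
    have h := hc Vt.U
    rw [ncard_U] at h
    revert h
    cases φ Vt.U with
    | P g h => rw [ncard_P]; intro h; omega
    | Q h => rw [ncard_Q]; intro h; omega
    | V g i => rw [ncard_V]; intro h; have := i.2; omega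
    | W h => rw [ncard_W]; intro h; omega
    | U => intro _; rfl
  have hUn : ∀ y, φ y ∈ nn e (Vt.U : Vt Γ n) ↔ y ∈ nn e (Vt.U : Vt Γ n) := by
    intro y
    have := mem_nn_iso e φ Vt.U y
    rwa [hU] at this
  have hW : ∀ h, ∃ h', φ (Vt.W h) = Vt.W h' := by
    intro h
    have h1 := hc (Vt.W h)
    have h2 := hUn (Vt.W h)
    have h3 : φ (Vt.W h) ≠ Vt.U := by
      rw [← hU, Ne, φ.injective.eq_iff]; simp
    rw [ncard_W] at h1
    revert h1 h2 h3
    cases φ (Vt.W h) with
    | P g h => simp [nn, inc]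
    | Q h => simp [nn, inc]
    | V g i => rw [ncard_V]; intro h; have := i.2; omega
    | W h => intro _ _ _; exact ⟨h, rfl⟩
    | U => simp
  have hV : ∀ g i, ∃ g', φ (Vt.V g i) = Vt.V g' i := by
    intro g i
    have h1 := hc (Vt.V g i)
    have h2 := hUn (Vt.V g i)
    have h3 : φ (Vt.V g i) ≠ Vt.U := by
      rw [← hU, Ne, φ.injective.eq_iff]; simp
    rw [ncard_V] at h1
    revert h1 h2 h3
    have := i.2
    cases φ (Vt.V g i) with
    | P g h => simp [nn, inc]
    | Q h => simp [nn, inc]
    | V g' i' =>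
      rw [ncard_V]; intro h _ _
      have : i' = i := Fin.ext (by omega)
      exact ⟨g', by rw [this]⟩
    | W h => rw [ncard_W]; intro h; omega
    | U => simp
  have hQ : ∀ h, ∃ h', φ (Vt.Q h) = Vt.Q h' := by
    intro h
    have h1 := hc (Vt.Q h)
    have h2 := hUn (Vt.Q h)
    rw [ncard_Q] at h1
    revert h1 h2
    cases φ (Vt.Q h) with
    | P g h =>
      rw [ncard_P]; intro h'
      have := (e (g⁻¹ * h)).2
      omega
    | Q h => intro _ _; exact ⟨h, rfl⟩
    | V g i => simp [nn, inc]
    | W h => simp [nn, inc]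
    | U => simp [nn, inc]
  have hP : ∀ g h, ∃ g' h', φ (Vt.P g h) = Vt.P g' h' ∧ g'⁻¹ * h' = g⁻¹ * h := by
    intro g h
    have h1 := hc (Vt.P g h)
    have h2 := hUn (Vt.P g h)
    rw [ncard_P] at h1
    revert h1 h2
    have hlt := (e (g⁻¹ * h)).2
    cases φ (Vt.P g h) with
    | P g' h' =>
      rw [ncard_P]; intro h1 _
      have hlt' := (e (g'⁻¹ * h')).2
      refine ⟨g', h', rfl, e.injective (Fin.ext ?_)⟩
      omega
    | Q h => rw [ncard_Q]; intro h1; omega
    | V g i => simp [nn, inc]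
    | W h => simp [nn, inc]
    | U => simp [nn, inc]
  choose π hπ using hW
  choose τ hτ using hV
  choose κ hκ using hQ
  choose p q hpq hpq' using hP
  -- points on lines
  have h1 : ∀ g h, q g h = π h := by
    intro g h
    have := (mem_nn_iso e φ (Vt.P g h) (Vt.W h)).2 (by simp [nn, inc])
    rw [hpq, hπ] at this
    simpa [nn, inc] using this
  have h2 : ∀ g h i, e (g⁻¹ * h) ≤ i → p g h = τ g i := by
    intro g h i hi
    have := (mem_nn_iso e φ (Vt.P g h) (Vt.V g i)).2 (by simp [nn, inc, hi])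
    rw [hpq, hτ] at this
    simp only [nn, inc, Set.mem_ofPred_eq, or_false] at this
    exact this.1
  have h3 : ∀ h, κ h = π h := by
    intro h
    have := (mem_nn_iso e φ (Vt.Q h) (Vt.W h)).2 (by simp [nn, inc])
    rw [hκ, hπ] at this
    simpa [nn, inc] using this
  let last : Fin n := ⟨n - 1, by omega⟩
  have hlast : ∀ j : Fin n, j ≤ last := by
    intro j
    rw [Fin.le_def]
    have := j.2
    change (j : ℕ) ≤ n - 1
    omega
  have h4 : ∀ g h, (τ g last)⁻¹ * π h = g⁻¹ * h := by
    intro g h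
    have := hpq' g h
    rwa [h1, h2 g h last (hlast _)] at this
  have h5 : ∀ h, π h = τ 1 last * h := by
    intro h
    have := h4 1 h
    rw [inv_one, one_mul, inv_mul_eq_iff_eq_mul] at this
    exact this
  have h6 : ∀ g, τ g last = τ 1 last * g := by
    intro g
    have := h4 g g
    rw [inv_mul_cancel, inv_mul_eq_one, h5] at this
    exact this
  have h7 : ∀ g i, τ g i = τ 1 last * g := by
    intro g i
    have hz : e (g⁻¹ * (g * e.symm ⟨0, by omega⟩)) ≤ i := by
      rw [inv_mul_cancel_left, Equiv.apply_symm_apply, Fin.le_def]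
      exact Nat.zero_le _
    rw [← h6, ← h2 g _ i hz, h2 g _ last (hlast _)]
  refine ⟨τ 1 last, fun y => ?_⟩
  cases y with
  | P g h => rw [hpq, act, h1, h5, h2 g h last (hlast _), h6]
  | Q h => rw [hκ, act, h3, h5]
  | V g i => rw [hτ, act, h7]
  | W h => rw [hπ, act, h5]
  | U => rw [hU, act]

/-- The automorphism group of the graph `XG e` is the group `Γ`. -/
theorem aut_equiv (e : Γ ≃ Fin n) (hn : 2 ≤ n) : Nonempty (Γ ≃* (XG e ≃g XG e)) := by
  let f : Γ →* (XG e ≃g XG e) :=
    { toFun := actIso e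
      map_one' := by
        ext y
        exact act_one y
      map_mul' := fun x x' => by
        ext y
        exact act_mul x x' y }
  refine ⟨MulEquiv.ofBijective f ⟨?_, ?_⟩⟩
  · intro x x' h
    have h1 : act x (Vt.Q (1 : Γ) : Vt Γ n) = act x' (Vt.Q (1 : Γ)) :=
      congrArg (fun ψ : XG e ≃g XG e => ψ (Vt.Q 1)) h
    simpa [act] using h1
  · intro φ
    obtain ⟨x, hx⟩ := aut_eq e hn φ
    refine ⟨x, ?_⟩
    ext y
    exact (hx y).symm

end Groups

/-- If a finite graph `Y` has two disjoint connected sets of vertices with at least four edges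
between them, then the class `𝒢(Y)` is universal. -/
theorem universal_of_four {W : Type u} (Y : SimpleGraph W) (A B : Set W)
    (hdis : Disjoint A B) (hA : (Y.induce A).Connected) (hB : (Y.induce B).Connected)
    (h4 : 4 ≤ {p : W × W | p.1 ∈ A ∧ p.2 ∈ B ∧ Y.Adj p.1 p.2}.ncard) :
    Universal.{u, v} Y := by
  obtain ⟨f, hf⟩ : ∃ f : Fin 4 → W × W, Function.Injective f ∧
      ∀ i, (f i).1 ∈ A ∧ (f i).2 ∈ B ∧ Y.Adj (f i).1 (f i).2 := by
    obtain ⟨t, ht, hcard⟩ := Set.exists_subset_card_eq h4
    have hfin : t.Finite := Set.finite_of_ncard_ne_zero (by omega)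
    have := hfin.to_subtype
    have hc : Nat.card t = 4 := hcard
    obtain ⟨g⟩ : Nonempty (Fin 4 ≃ t) :=
      ⟨(Finite.equivFinOfCardEq hc).symm⟩
    exact ⟨fun i => (g i).1, Subtype.val_injective.comp g.injective, fun i => ht (g i).2⟩
  intro Γ _ _
  have hrep := fun (X : Type v) (G : SimpleGraph X) => rep (G := G) hdis hA hB
    (fun i => (f i).1) (fun i => (f i).2) (fun i => (hf.2 i).1) (fun i => (hf.2 i).2.1)
    (fun i => (hf.2 i).2.2) hf.1
  by_cases h1 : Nat.card Γ ≤ 1
  · have hsub : Subsingleton Γ := Finite.card_le_one_iff_subsingleton.1 h1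
    refine ⟨PUnit, inferInstance, ⊥, ?_, ?_⟩
    · refine hrep _ _ (fun _ => True) (fun _ _ => 0) 0 (fun _ _ => le_rfl) ?_ ?_
      · intro x y hxy
        exact absurd (Subsingleton.elim x y) hxy
      · intro x y _ hy
        exact absurd trivial hy
    · have : Subsingleton ((⊥ : SimpleGraph PUnit.{v + 1}) ≃g (⊥ : SimpleGraph PUnit.{v + 1})) :=
        ⟨fun a b => by ext⟩
      exact ⟨⟨⟨fun _ => 1, fun _ => 1, fun _ => Subsingleton.elim _ _,
        fun _ => Subsingleton.elim _ _⟩, fun _ _ => Subsingleton.elim _ _⟩⟩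
  · obtain ⟨e⟩ : Nonempty (Γ ≃ Fin (Nat.card Γ)) := ⟨Finite.equivFin Γ⟩
    refine ⟨Vt Γ (Nat.card Γ), inferInstance, XG e, ?_, aut_equiv e (by omega)⟩
    refine hrep _ _ side (pos e) _ (pos_le e) (side_adj e) ?_
    intro x y hx hy
    have h2 := inc_iff e x y hx hy
    have h3 : x ≠ y := by rintro rfl; exact hy hx
    have h4 : ¬ inc e y x := fun h => hy (inc_side e y x h)
    have h5 : (∃ i, pos e y i < pos e x i) ↔ ¬ inc e x y := by
      rw [h2]; push Not; rfl
    rw [h5]
    exact ⟨fun h => h.2.1, fun h => ⟨h3, h, h4⟩⟩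

/-- **Main theorem.** (1) If a finite graph `Y` has two disjoint connected sets `A`, `B` of
vertices with at least four edges between them, then every finite group is the automorphism group
of a finite graph in `𝒢(Y)`. (2) This applies to the complete graph on four vertices. -/
theorem result :
    (∀ (W : Type) [Finite W] (Y : SimpleGraph W) (A B : Set W), Disjoint A B →
      (Y.induce A).Connected → (Y.induce B).Connected →
      4 ≤ {p : W × W | p.1 ∈ A ∧ p.2 ∈ B ∧ Y.Adj p.1 p.2}.ncard → Universal.{0, v} Y) ∧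
    Universal.{0, v} (⊤ : SimpleGraph (Fin 4)) := by
  refine ⟨fun W _ Y A B hdis hA hB h4 => universal_of_four Y A B hdis hA hB h4, ?_⟩
  have hcon : ∀ s : Set (Fin 4), s.Nonempty →
      ((⊤ : SimpleGraph (Fin 4)).induce s).Connected := by
    intro s hs
    have : Nonempty s := hs.to_subtype
    rw [connected_iff_exists_forall_reachable]
    refine ⟨Classical.arbitrary s, fun y => ?_⟩
    by_cases h : Classical.arbitrary s = y
    · rw [h]
    · refine SimpleGraph.Adj.reachable ?_
      change (⊤ : SimpleGraph (Fin 4)).Adj _ _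
      rw [SimpleGraph.top_adj]
      exact fun h' => h (Subtype.ext h')
  refine universal_of_four _ {0, 1} {2, 3} ?_ (hcon _ ⟨0, by simp⟩) (hcon _ ⟨2, by simp⟩) ?_
  · rw [Set.disjoint_left]
    intro a ha hb
    simp only [Set.mem_insert_iff, Set.mem_singleton_iff] at ha hb
    omega
  · have : ({p : Fin 4 × Fin 4 | p.1 ∈ ({0, 1} : Set (Fin 4)) ∧ p.2 ∈ ({2, 3} : Set (Fin 4)) ∧
        (⊤ : SimpleGraph (Fin 4)).Adj p.1 p.2}) =
        (({(0, 2), (0, 3), (1, 2), (1, 3)} : Finset (Fin 4 × Fin 4)) : Set (Fin 4 × Fin 4)) := by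
      ext ⟨a, b⟩
      simp only [Set.mem_insert_iff, Set.mem_singleton_iff, Set.mem_ofPred_eq,
        SimpleGraph.top_adj, Finset.coe_insert, Finset.coe_singleton, Prod.mk.injEq]
      revert a b
      decide
    rw [this, Set.ncard_coe_finset]
    decide

end Pool.Agent.Results.MP_f0827e_co.FourDipole
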